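import Pool.Agent.Lib.MP_d09e6d_nt.Defs

namespace Pool.Agent.Lib.MP_d09e6d_nt

open GenContFract

theorem J_mono {F G : Set ℕ} (h : F ⊆ G) : J F ⊆ J G := by
  rintro x ⟨h1, h2, h3, h4⟩
  refine ⟨h1, h2, h3, fun i => ?_⟩
  obtain ⟨a, ha, hb⟩ := h4 i
  exact ⟨a, h ha, hb⟩

theorem of_s_congr {v w : ℝ} (h : Int.fract v = Int.fract w) (n : ℕ) :
    (GenContFract.of v).s.get? n = (GenContFract.of w).s.get? n := by
  cases n with
  | zero =>
    rw [of_s_head_aux, of_s_head_aux]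
    simp [IntFractPair.stream, IntFractPair.of, h]
  | succ n => rw [of_s_succ, of_s_succ, h]

theorem partDens_get (v : ℝ) (n : ℕ) :
    (GenContFract.of v).partDens.get? n = ((GenContFract.of v).s.get? n).map Pair.b := by
  simp [GenContFract.partDens, Stream'.Seq.map_get?]

theorem J_step {F : Set ℕ} {x : ℝ} (hx : x ∈ J F) :
    ∃ a ∈ F, 1 ≤ a ∧ ∃ y ∈ J F, x = 1 / ((a : ℝ) + y) := by
  obtain ⟨h1, h2, h3, h4⟩ := hx
  have hfr : Int.fract x = x := Int.fract_eq_self.2 ⟨h2.le, h3⟩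
  have hne : Int.fract x ≠ 0 := by rw [hfr]; exact h2.ne'
  have hhead := of_s_head hne
  obtain ⟨a, ha, hb⟩ := h4 0
  rw [partDens_get] at hb
  have h0 : (GenContFract.of x).s.get? 0 = some ⟨1, ⌊(Int.fract x)⁻¹⌋⟩ := hhead
  rw [h0, hfr] at hb
  simp only [Option.map_some, Option.some.injEq] at hb
  have hinv : 1 < x⁻¹ := (one_lt_inv₀ h2).2 h3
  have hirr : Irrational x⁻¹ := h1.inv
  have hirr2 : Irrational (Int.fract x⁻¹) := by
    unfold Int.fract
    exact hirr.sub_intCast _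
  have hfl : (1 : ℤ) ≤ ⌊x⁻¹⌋ := Int.le_floor.2 (by exact_mod_cast hinv.le)
  refine ⟨a, ha, ?_, Int.fract x⁻¹, ⟨hirr2, ?_, Int.fract_lt_one _, fun i => ?_⟩, ?_⟩
  · have : (1 : ℝ) ≤ (a : ℝ) := by rw [← hb]; exact_mod_cast hfl
    exact_mod_cast this
  · rcases (Int.fract_nonneg x⁻¹).lt_or_eq with h | h
    · exact h
    · exact absurd h.symm hirr2.ne_zero
  · obtain ⟨b, hb1, hb2⟩ := h4 (i + 1)
    refine ⟨b, hb1, ?_⟩
    rw [partDens_get] at hb2 ⊢
    rw [of_s_succ, hfr] at hb2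
    rw [of_s_congr (w := x⁻¹) (by simp)]
    exact hb2
  · rw [← hb, Int.floor_add_fract]; simp

theorem mem_J_of_seq {F : Set ℕ} (x : ℕ → ℝ) (d : ℕ → ℕ) (hd : ∀ i, d i ∈ F)
    (hd1 : ∀ i, 1 ≤ d i) (hx0 : ∀ i, 0 ≤ x i)
    (hrec : ∀ i, x i * ((d i : ℝ) + x (i + 1)) = 1) : x 0 ∈ J F := by
  have hpos : ∀ i, 0 < x i := by
    intro i
    rcases (hx0 i).lt_or_eq with h | h
    · exact h
    · have := hrec i
      rw [← h] at this
      simp at this
  have hlt : ∀ i, x i < 1 := by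
    intro i
    have h1 : (1 : ℝ) ≤ d i := by exact_mod_cast hd1 i
    have h2 := hpos (i + 1)
    have h3 := hrec i
    have h4 := hpos i
    nlinarith
  have hinv : ∀ i, (x i)⁻¹ = (d i : ℝ) + x (i + 1) := fun i =>
    (eq_inv_of_mul_eq_one_right (hrec i)).symm
  have hfloor : ∀ i, ⌊(x i)⁻¹⌋ = (d i : ℤ) := by
    intro i
    rw [hinv, Int.floor_eq_iff]
    have := hpos (i + 1)
    have := hlt (i + 1)
    push_cast
    constructor <;> linarith
  have hfract : ∀ i, Int.fract (x i)⁻¹ = x (i + 1) := by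
    intro i
    unfold Int.fract
    rw [hfloor, hinv]; push_cast; ring
  have hstream : ∀ n, ∃ b : ℤ, IntFractPair.stream (x 0) n = some ⟨b, x n⟩ := by
    intro n
    induction n with
    | zero =>
      refine ⟨⌊x 0⌋, ?_⟩
      rw [IntFractPair.stream_zero, IntFractPair.of,
        Int.fract_eq_self.2 ⟨(hpos 0).le, hlt 0⟩]
    | succ n ih =>
      obtain ⟨b, hb⟩ := ih
      refine ⟨⌊(x n)⁻¹⌋, ?_⟩
      rw [IntFractPair.stream_succ_of_some hb (hpos n).ne', IntFractPair.of, hfract]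
  have hs : ∀ n, (GenContFract.of (x 0)).s.get? n = some ⟨1, (d n : ℝ)⟩ := by
    intro n
    obtain ⟨b, hb⟩ := hstream n
    rw [get?_of_eq_some_of_get?_intFractPair_stream_fr_ne_zero hb (hpos n).ne']
    simp [IntFractPair.of, hfloor]
  refine ⟨?_, hpos 0, hlt 0, fun i => ⟨d i, hd i, ?_⟩⟩
  · rintro ⟨q, hq⟩
    have : (GenContFract.of (x 0)).Terminates := (terminates_iff_rat (x 0)).2 ⟨q, hq.symm⟩
    obtain ⟨n, hn⟩ := this
    have h2 : (GenContFract.of (x 0)).s.get? n = none := hn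
    rw [hs] at h2
    simp at h2
  · rw [partDens_get, hs]; rfl

end Pool.Agent.Lib.MP_d09e6d_nt
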