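import Mathlib

namespace Pool.Agent.Lib.MP_d09e6d_nt

/-- The irrational numbers in (0,1) all of whose regular continued fraction partial quotients
lie in `F`. -/
def J (F : Set ℕ) : Set ℝ :=
  {x | Irrational x ∧ 0 < x ∧ x < 1 ∧
    ∀ i : ℕ, ∃ a ∈ F, (GenContFract.of x).partDens.get? i = some (a : ℝ)}

/-- The dimension spectrum of `A`. -/
def DS (A : Set ℕ) : Set ℝ :=
  {d | ∃ F : Set ℕ, F ⊆ A ∧ F.Nonempty ∧ d = (dimH (J F)).toReal}

/-- The set of `q`-th powers of positive integers. -/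
def M (q : ℕ) : Set ℕ := {m | ∃ n : ℕ, 1 ≤ n ∧ m = n ^ q}

end Pool.Agent.Lib.MP_d09e6d_nt
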