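import Pool.Agent.Lib.MP_d09e6d_nt.CF

namespace Pool.Agent.Lib.MP_d09e6d_nt

open Set Filter Metric MeasureTheory
open scoped NNReal ENNReal Topology

theorem exists_cf_seq (d : ℕ → ℝ) (hd : ∀ i, 1 ≤ d i) :
    ∃ x : ℕ → ℝ, (∀ i, x i ∈ Icc (0 : ℝ) 1) ∧ ∀ i, x i * (d i + x (i + 1)) = 1 := by
  let C : ℕ → Set (ℕ → ℝ) := fun k =>
    (Set.pi univ fun _ => Icc (0 : ℝ) 1) ∩ {x | ∀ i < k, x i * (d i + x (i + 1)) = 1}
  have hK : IsCompact (Set.pi univ fun _ : ℕ => Icc (0 : ℝ) 1) :=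
    isCompact_univ_pi fun _ => isCompact_Icc
  have hcl : ∀ k, IsClosed {x : ℕ → ℝ | ∀ i < k, x i * (d i + x (i + 1)) = 1} := by
    intro k
    simp only [Set.ofPred_forall]
    refine isClosed_iInter fun i => isClosed_iInter fun _ => ?_
    exact isClosed_eq (by fun_prop) continuous_const
  have hne : ∀ k (e : ℕ → ℝ), (∀ i, 1 ≤ e i) → ∃ x : ℕ → ℝ, (∀ i, x i ∈ Icc (0 : ℝ) 1) ∧
      ∀ i < k, x i * (e i + x (i + 1)) = 1 := by
    intro k
    induction k with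
    | zero => intro e _; exact ⟨fun _ => 0, fun _ => by simp, fun i hi => by omega⟩
    | succ k ih =>
      intro e he
      obtain ⟨y, hy1, hy2⟩ := ih (fun i => e (i + 1)) (fun i => he _)
      have h0 := (hy1 0).1
      have h1 := he 0
      refine ⟨fun i => Nat.casesOn i (1 / (e 0 + y 0)) y, ?_, ?_⟩
      · intro i
        cases i with
        | zero =>
          constructor
          · show 0 ≤ 1 / (e 0 + y 0)
            positivity
          · show 1 / (e 0 + y 0) ≤ 1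
            rw [div_le_one (by linarith)]; linarith
        | succ i => exact hy1 i
      · intro i hi
        cases i with
        | zero =>
          show 1 / (e 0 + y 0) * (e 0 + y 0) = 1
          field_simp
        | succ i => exact hy2 i (by omega)
  obtain ⟨x, hx⟩ := IsCompact.nonempty_iInter_of_sequence_nonempty_isCompact_isClosed C
    (fun k x hx => ⟨hx.1, fun i hi => hx.2 i (by omega)⟩)
    (fun k => by
      obtain ⟨x, h1, h2⟩ := hne k d hd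
      exact ⟨x, fun i _ => h1 i, h2⟩)
    (hK.inter_right (hcl 0)) (fun k => hK.isClosed.inter (hcl k))
  rw [mem_iInter] at hx
  exact ⟨x, fun i => (hx 0).1 i (mem_univ _), fun i => (hx (i + 1)).2 i (by omega)⟩

/-- Admissible pairs of sequences. -/
def Adm (p N : ℝ) (y x : ℕ → ℝ) : Prop :=
  ∀ i, y i ∈ Icc (0 : ℝ) 1 ∧ x i ∈ Icc (0 : ℝ) 1 ∧
    ((y i = p * y (i + 1) ∧ x i * (1 + x (i + 1)) = 1) ∨
      (y i = p + (1 - p) * y (i + 1) ∧ x i * (N + x (i + 1)) = 1))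

theorem exists_adm {p N : ℝ} (hp0 : 0 < p) (hp1 : p < 1) (hN : 1 ≤ N) {y0 : ℝ}
    (hy0 : y0 ∈ Icc (0 : ℝ) 1) : ∃ y x, Adm p N y x ∧ y 0 = y0 := by
  classical
  let T : ℝ → ℝ := fun y => if y ≤ p then y / p else (y - p) / (1 - p)
  have hT : MapsTo T (Icc 0 1) (Icc 0 1) := by
    rintro y ⟨h0, h1⟩
    simp only [T]
    split_ifs with h
    · exact ⟨by positivity, (div_le_one hp0).2 h⟩
    · push Not at h
      exact ⟨div_nonneg (by linarith) (by linarith), (div_le_one (by linarith)).2 (by linarith)⟩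
  let y : ℕ → ℝ := fun i => T^[i] y0
  have hy : ∀ i, y i ∈ Icc (0 : ℝ) 1 := fun i => hT.iterate i hy0
  have hys : ∀ i, y (i + 1) = T (y i) := fun i => Function.iterate_succ_apply' T i y0
  obtain ⟨x, hx1, hx2⟩ := exists_cf_seq (fun i => if y i ≤ p then 1 else N)
    (fun i => by split_ifs <;> simp [hN])
  refine ⟨y, x, fun i => ⟨hy i, hx1 i, ?_⟩, rfl⟩
  have h2 := hx2 i
  by_cases h : y i ≤ p
  · left
    simp only [h, if_true] at h2
    refine ⟨?_, h2⟩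
    rw [hys]; simp only [T, h, if_true]; field_simp
  · right
    simp only [h, if_false] at h2
    refine ⟨?_, h2⟩
    have : 1 - p ≠ 0 := by linarith
    rw [hys]; simp only [T, h, if_false]; field_simp; ring

theorem cf_expand {a x x' u u' : ℝ} (ha : 1 ≤ a) (hu : u ∈ Icc (0 : ℝ) 1)
    (hu' : u' ∈ Icc (0 : ℝ) 1) (h : x * (a + u) = 1) (h' : x' * (a + u') = 1) :
    |u - u'| ≤ (a + 1) ^ 2 * |x - x'| := by
  obtain ⟨h0, h1⟩ := hu
  obtain ⟨h0', h1'⟩ := hu'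
  have e : u - u' = -((a + u) * (a + u')) * (x - x') := by
    have : -((a + u) * (a + u')) * (x - x') =
        -(x * (a + u)) * (a + u') + (x' * (a + u')) * (a + u) := by ring
    rw [this, h, h']; ring
  rw [e, abs_mul, abs_neg, abs_of_nonneg (by positivity)]
  gcongr
  nlinarith

theorem step_bound {s w a x x' u u' : ℝ} (hs : 0 < s) (ha : 1 ≤ a) (hw0 : 0 ≤ w)
    (hw : w * ((a + 1) ^ 2) ^ s ≤ 1)
    (hu : u ∈ Icc (0 : ℝ) 1)
    (hu' : u' ∈ Icc (0 : ℝ) 1) (h : x * (a + u) = 1) (h' : x' * (a + u') = 1) :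
    w * (4 * |u - u'|) ^ s ≤ (4 * |x - x'|) ^ s := by
  have h1 := cf_expand ha hu hu' h h'
  calc w * (4 * |u - u'|) ^ s ≤ w * (((a + 1) ^ 2) * (4 * |x - x'|)) ^ s := by
        apply mul_le_mul_of_nonneg_left _ hw0
        apply Real.rpow_le_rpow (by positivity) _ hs.le
        nlinarith
    _ = (w * ((a + 1) ^ 2) ^ s) * (4 * |x - x'|) ^ s := by
        rw [Real.mul_rpow (by positivity) (by positivity)]; ring
    _ ≤ 1 * (4 * |x - x'|) ^ s := by gcongr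
    _ = _ := one_mul _

theorem sep_bound {N x x' u u' : ℝ} (hN : 4 ≤ N) (hu : u ∈ Icc (0 : ℝ) 1)
    (hu' : u' ∈ Icc (0 : ℝ) 1) (hx : x ∈ Icc (0 : ℝ) 1) (hx' : x' ∈ Icc (0 : ℝ) 1)
    (h : x * (1 + u) = 1) (h' : x' * (N + u') = 1) :
    1 ≤ 4 * |x - x'| := by
  obtain ⟨h0, h1⟩ := hu
  obtain ⟨h0', h1'⟩ := hu'
  obtain ⟨g0, g1⟩ := hx
  obtain ⟨g0', g1'⟩ := hx'
  have e1 : 1 / 2 ≤ x := by nlinarith
  have e2 : x' ≤ 1 / 4 := by nlinarith
  have := le_abs_self (x - x')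
  linarith

theorem adm_holder_aux {s p N : ℝ} (hs : 0 < s) (hp0 : 0 < p) (hp1 : p < 1) (hN : 4 ≤ N)
    (hw1 : p * ((1 + 1) ^ 2) ^ s ≤ 1) (hw2 : (1 - p) * ((N + 1) ^ 2) ^ s ≤ 1) (k : ℕ) :
    ∀ y x y' x', Adm p N y x → Adm p N y' x' →
      |y 0 - y' 0| ≤ (4 * |x 0 - x' 0|) ^ s + (max p (1 - p)) ^ k := by
  have hl0 : 0 ≤ max p (1 - p) := le_max_of_le_left hp0.le
  have habs : ∀ {a b : ℝ}, a ∈ Icc (0 : ℝ) 1 → b ∈ Icc (0 : ℝ) 1 → |a - b| ≤ 1 := by
    rintro a b ⟨h1, h2⟩ ⟨h3, h4⟩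
    rw [abs_le]; constructor <;> linarith
  induction k with
  | zero =>
    intro y x y' x' h h'
    have := habs (h 0).1 (h' 0).1
    have h2 : 0 ≤ (4 * |x 0 - x' 0|) ^ s := by positivity
    simp only [pow_zero]; linarith
  | succ k ih =>
    intro y x y' x' h h'
    have ih' := ih (fun i => y (i + 1)) (fun i => x (i + 1)) (fun i => y' (i + 1))
      (fun i => x' (i + 1)) (fun i => h (i + 1)) (fun i => h' (i + 1))
    simp only [zero_add] at ih'
    have hpow : 0 ≤ (max p (1 - p)) ^ k := by positivity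
    have hpow' : 0 ≤ (max p (1 - p)) ^ (k + 1) := by positivity
    have hx1 := (h 1).2.1
    have hx1' := (h' 1).2.1
    obtain ⟨a1, a2, a3⟩ := h 0
    obtain ⟨b1, b2, b3⟩ := h' 0
    simp only [zero_add] at a3 b3
    rcases a3 with ⟨a3, a4⟩ | ⟨a3, a4⟩ <;> rcases b3 with ⟨b3, b4⟩ | ⟨b3, b4⟩
    · have e : y 0 - y' 0 = p * (y 1 - y' 1) := by rw [a3, b3]; ring
      have hb := step_bound hs le_rfl hp0.le hw1 hx1 hx1' a4 b4
      rw [e, abs_mul, abs_of_pos hp0, pow_succ']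
      have h3 : p * (max p (1 - p)) ^ k ≤ max p (1 - p) * (max p (1 - p)) ^ k := by
        gcongr; exact le_max_left _ _
      nlinarith
    · have h1 := sep_bound hN hx1 hx1' a2 b2 a4 b4
      have h2 : 1 ≤ (4 * |x 0 - x' 0|) ^ s := Real.one_le_rpow h1 hs.le
      have := habs a1 b1
      linarith
    · have h1 := sep_bound hN hx1' hx1 b2 a2 b4 a4
      rw [abs_sub_comm] at h1
      have h2 : 1 ≤ (4 * |x 0 - x' 0|) ^ s := Real.one_le_rpow h1 hs.le
      have := habs a1 b1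
      linarith
    · have e : y 0 - y' 0 = (1 - p) * (y 1 - y' 1) := by rw [a3, b3]; ring
      have hq : 0 < 1 - p := by linarith
      have hb := step_bound hs (by linarith) hq.le hw2 hx1 hx1' a4 b4
      rw [e, abs_mul, abs_of_pos hq, pow_succ']
      have h3 : (1 - p) * (max p (1 - p)) ^ k ≤ max p (1 - p) * (max p (1 - p)) ^ k := by
        gcongr; exact le_max_right _ _
      nlinarith

theorem adm_holder {s p N : ℝ} (hs : 0 < s) (hp0 : 0 < p) (hp1 : p < 1) (hN : 4 ≤ N)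
    (hw1 : p * ((1 + 1) ^ 2) ^ s ≤ 1) (hw2 : (1 - p) * ((N + 1) ^ 2) ^ s ≤ 1)
    {y x y' x' : ℕ → ℝ} (h : Adm p N y x) (h' : Adm p N y' x') :
    |y 0 - y' 0| ≤ (4 * |x 0 - x' 0|) ^ s := by
  have hl0 : 0 ≤ max p (1 - p) := le_max_of_le_left hp0.le
  have hl1 : max p (1 - p) < 1 := max_lt hp1 (by linarith)
  have ht := (tendsto_pow_atTop_nhds_zero_of_lt_one hl0 hl1).const_add ((4 * |x 0 - x' 0|) ^ s)
  rw [add_zero] at ht
  exact ge_of_tendsto' ht fun k => adm_holder_aux hs hp0 hp1 hN hw1 hw2 k y x y' x' h h'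

theorem adm_mem_J {p : ℝ} {N : ℕ} (hN : 1 ≤ N) {y x : ℕ → ℝ} (h : Adm p N y x) :
    x 0 ∈ J {1, N} := by
  have : ∀ i, ∃ a : ℕ, a ∈ ({1, N} : Set ℕ) ∧ 1 ≤ a ∧ x i * ((a : ℝ) + x (i + 1)) = 1 := by
    intro i
    rcases (h i).2.2 with ⟨-, h2⟩ | ⟨-, h2⟩
    · exact ⟨1, by simp, le_rfl, by simpa using h2⟩
    · exact ⟨N, by simp, hN, h2⟩
  choose d hd1 hd2 hd3 using this
  exact mem_J_of_seq x d hd1 hd2 (fun i => (h i).2.1.1) hd3

/-- Lower bound for the dimension of the two-digit set. -/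
theorem le_dimH_J (N : ℕ) (hN : 4 ≤ N) (s : ℝ≥0) (hs : 0 < s)
    (hw : (1 - (4 : ℝ) ^ (-(s : ℝ))) * (((N : ℝ) + 1) ^ 2) ^ (s : ℝ) ≤ 1) :
    (s : ℝ≥0∞) ≤ dimH (J {1, N}) := by
  classical
  set p : ℝ := (4 : ℝ) ^ (-(s : ℝ)) with hp
  have hs' : (0 : ℝ) < s := hs
  have hp0 : 0 < p := by positivity
  have hp1 : p < 1 := Real.rpow_lt_one_of_one_lt_of_neg (by norm_num) (by linarith)
  have hN' : (4 : ℝ) ≤ N := by exact_mod_cast hN
  have hw1 : p * ((1 + 1) ^ 2) ^ (s : ℝ) ≤ 1 := by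
    have : ((1 + 1 : ℝ) ^ 2) = 4 := by norm_num
    rw [this, hp, ← Real.rpow_add (by norm_num)]
    simp
  let S : Set ℝ := {z | ∃ y x, Adm p N y x ∧ x 0 = z}
  have hSJ : S ⊆ J {1, N} := by
    rintro z ⟨y, x, h, rfl⟩
    exact adm_mem_J (by omega) h
  let f : ℝ → ℝ := fun z => if h : z ∈ S then h.choose 0 else 0
  have hf : ∀ z ∈ S, ∃ y x, Adm p N y x ∧ x 0 = z ∧ y 0 = f z := by
    intro z hz
    obtain ⟨x, h1, h2⟩ := hz.choose_spec
    exact ⟨_, x, h1, h2, by simp only [f, dif_pos hz]⟩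
  have hH : HolderOnWith ((4 : ℝ≥0) ^ (s : ℝ)) s f S := by
    intro z hz z' hz'
    obtain ⟨y, x, h1, h2, h3⟩ := hf z hz
    obtain ⟨y', x', h1', h2', h3'⟩ := hf z' hz'
    have := adm_holder hs' hp0 hp1 hN' hw1 hw h1 h1'
    rw [h2, h2', h3, h3'] at this
    rw [edist_dist, edist_dist, Real.dist_eq, Real.dist_eq,
      ENNReal.ofReal_rpow_of_nonneg (abs_nonneg _) hs'.le, ← ENNReal.ofReal_coe_nnreal,
      ← ENNReal.ofReal_mul (by positivity)]
    apply ENNReal.ofReal_le_ofReal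
    rw [Real.mul_rpow (by norm_num) (abs_nonneg _)] at this
    simpa using this
  have hsurj : Icc (0 : ℝ) 1 ⊆ f '' S := by
    intro y0 hy0
    obtain ⟨y, x, h1, h2⟩ := exists_adm hp0 hp1 (N := N) (by linarith) hy0
    have hz : x 0 ∈ S := ⟨y, x, h1, rfl⟩
    refine ⟨x 0, hz, ?_⟩
    obtain ⟨y', x', h1', h2', h3'⟩ := hf _ hz
    have := adm_holder hs' hp0 hp1 hN' hw1 hw h1 h1'
    rw [h2', sub_self, abs_zero, mul_zero, Real.zero_rpow hs'.ne', abs_nonpos_iff,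
      sub_eq_zero] at this
    rw [← h3', ← this, h2]
  have h1 : dimH (Icc (0 : ℝ) 1) = 1 := by
    rw [Real.dimH_of_nonempty_interior (by simp)]
    simp
  have h2 := (dimH_mono hsurj).trans (hH.dimH_image_le hs)
  rw [h1, ENNReal.le_div_iff_mul_le (Or.inl (by exact_mod_cast hs.ne')) (Or.inl ENNReal.coe_ne_top),
    one_mul] at h2
  exact h2.trans (dimH_mono hSJ)

end Pool.Agent.Lib.MP_d09e6d_nt
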