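import Pool.Agent.Lib.MP_d09e6d_nt.Upper
import Pool.Agent.Lib.MP_d09e6d_nt.Lower

namespace Pool.Agent.Lib.MP_d09e6d_nt

open Set Filter Metric MeasureTheory
open scoped NNReal ENNReal Topology

theorem sum_inv_sq_le (n : ℕ) :
    ∑ m ∈ Finset.range n, (((m : ℝ) + 2) ^ 2)⁻¹ ≤ 1 - 1 / ((n : ℝ) + 1) := by
  induction n with
  | zero => simp
  | succ n ih =>
    rw [Finset.sum_range_succ]
    have h : (((n : ℝ) + 2) ^ 2)⁻¹ ≤ 1 / ((n : ℝ) + 1) - 1 / ((n : ℝ) + 1 + 1) := by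
      have h1 : (0 : ℝ) < n + 1 := by positivity
      have e : 1 / ((n : ℝ) + 1) - 1 / ((n : ℝ) + 1 + 1) = (((n : ℝ) + 1) * (n + 2))⁻¹ := by
        field_simp; ring
      rw [e]
      apply inv_anti₀ (by positivity)
      nlinarith
    push_cast
    linarith

theorem tail_bound (k q : ℕ) (hk : 2 ≤ k) (s : ℝ≥0) (ht : 2 ≤ 2 * (q : ℝ) * s) :
    ∑' m : ℕ, ((((((m + k) ^ q : ℕ) : ℝ≥0) ^ 2)⁻¹ : ℝ≥0) : ℝ≥0∞) ^ (s : ℝ) ≤
      ENNReal.ofReal ((k : ℝ) ^ (2 - 2 * (q : ℝ) * s)) := by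
  have hk' : (2 : ℝ) ≤ k := by exact_mod_cast hk
  have hterm : ∀ m : ℕ, ((((((m + k) ^ q : ℕ) : ℝ≥0) ^ 2)⁻¹ : ℝ≥0) : ℝ≥0∞) ^ (s : ℝ) ≤
      ENNReal.ofReal ((k : ℝ) ^ (2 - 2 * (q : ℝ) * s) * (((m : ℝ) + 2) ^ 2)⁻¹) := by
    intro m
    rw [← ENNReal.coe_rpow_of_nonneg _ s.coe_nonneg, ← ENNReal.ofReal_coe_nnreal]
    apply ENNReal.ofReal_le_ofReal
    push_cast
    have hm : (0 : ℝ) ≤ m := m.cast_nonneg
    have hpos : (0 : ℝ) < (m : ℝ) + k := by linarith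
    have e : ((((m : ℝ) + k) ^ q) ^ 2)⁻¹ ^ (s : ℝ) =
        ((m : ℝ) + k) ^ (2 - 2 * (q : ℝ) * s) * (((m : ℝ) + k) ^ 2)⁻¹ := by
      rw [← pow_mul, ← Real.rpow_natCast, ← Real.rpow_neg hpos.le, ← Real.rpow_mul hpos.le,
        ← Real.rpow_natCast _ 2, ← Real.rpow_neg hpos.le, ← Real.rpow_add hpos]
      congr 1
      push_cast
      ring
    rw [e]
    apply mul_le_mul
    · exact Real.rpow_le_rpow_of_nonpos (by linarith) (by linarith) (by linarith)
    · apply inv_anti₀ (by positivity)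
      gcongr
    · positivity
    · positivity
  refine (ENNReal.tsum_le_tsum hterm).trans ?_
  apply ENNReal.tsum_le_of_sum_range_le
  intro n
  rw [← ENNReal.ofReal_sum_of_nonneg (fun i _ => by positivity)]
  apply ENNReal.ofReal_le_ofReal
  rw [← Finset.mul_sum]
  have h1 := sum_inv_sq_le n
  have h2 : (0 : ℝ) ≤ 1 / ((n : ℝ) + 1) := by positivity
  have h3 : (0 : ℝ) ≤ (k : ℝ) ^ (2 - 2 * (q : ℝ) * s) := by positivity
  nlinarith

theorem exp_neg_le {x : ℝ} (h0 : 0 ≤ x) (h1 : x ≤ 1) : Real.exp (-x) ≤ 1 - x / 2 := by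
  have h2 := Real.add_one_le_exp x
  rw [Real.exp_neg, inv_le_iff_one_le_mul₀ (Real.exp_pos x)]
  nlinarith

theorem exp_sub_one_le {x : ℝ} (h0 : 0 ≤ x) (h1 : x ≤ 1) : Real.exp x - 1 ≤ 2 * x := by
  have := Real.abs_exp_sub_one_le (x := x) (by rw [abs_of_nonneg h0]; exact h1)
  rw [abs_of_nonneg h0] at this
  exact (le_abs_self _).trans this

theorem ev_log_le (C κ : ℝ) (hκ : 0 < κ) : ∀ᶠ q : ℝ in atTop, C * Real.log q ≤ q ^ κ := by
  have h := (isLittleO_log_rpow_atTop hκ).const_mul_left C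
  filter_upwards [h.bound one_pos, eventually_ge_atTop 0] with q hq hq0
  rw [one_mul, Real.norm_eq_abs, Real.norm_eq_abs, abs_of_nonneg (Real.rpow_nonneg hq0 _)] at hq
  exact (le_abs_self _).trans hq

theorem ev_lower (n : ℕ) (hn : 2 ≤ n) (c : ℝ) (hc0 : 0 < c) (hc : c * Real.log n < 1) :
    ∀ᶠ q : ℕ in atTop, ∀ v : ℝ≥0, (v : ℝ) = c * Real.log q / (2 * q) →
      ∀ m : ℕ, 2 ≤ m → m ≤ n → (v : ℝ≥0∞) ≤ dimH (J {1, m ^ q}) := by
  have h1 := tendsto_natCast_atTop_atTop.eventually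
    (ev_log_le (c * Real.log 4) (1 - c * Real.log n) (by linarith))
  have h2 := tendsto_natCast_atTop_atTop.eventually (ev_log_le (c * Real.log 4) 1 one_pos)
  filter_upwards [h1, h2, eventually_ge_atTop 2] with q hq1 hq2 hq3 v hv m hm hmn
  have hq : (2 : ℝ) ≤ q := by exact_mod_cast hq3
  have hq0 : (0 : ℝ) < q := by linarith
  have hlog : 0 < Real.log q := Real.log_pos (by linarith)
  have hv0 : (0 : ℝ) < v := by rw [hv]; positivity
  have hl4 : 0 < Real.log 4 := Real.log_pos (by norm_num)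
  have h4 : 4 ≤ m ^ q := by
    calc 4 = 2 ^ 2 := by norm_num
      _ ≤ 2 ^ q := Nat.pow_le_pow_right (by norm_num) hq3
      _ ≤ m ^ q := Nat.pow_le_pow_left hm q
  apply le_dimH_J _ h4 v hv0
  rw [Real.rpow_one] at hq2
  have hm' : (2 : ℝ) ≤ m := by exact_mod_cast hm
  have hmn' : (m : ℝ) ≤ n := by exact_mod_cast hmn
  have hn0 : (0 : ℝ) < n := by linarith
  have hA : ((((m ^ q : ℕ) : ℝ) + 1) ^ 2) ^ (v : ℝ) ≤ (4 : ℝ) ^ (v : ℝ) * q ^ (c * Real.log n) := by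
    have e1 : (((m ^ q : ℕ) : ℝ) + 1) ^ 2 ≤ 4 * (n : ℝ) ^ (2 * (q : ℝ)) := by
      have f1 : (1 : ℝ) ≤ (n : ℝ) ^ q := one_le_pow₀ (by linarith)
      have f2 : (m : ℝ) ^ q ≤ (n : ℝ) ^ q := by gcongr
      have f3 : (n : ℝ) ^ (2 * (q : ℝ)) = ((n : ℝ) ^ q) ^ 2 := by
        rw [mul_comm, Real.rpow_mul hn0.le, Real.rpow_natCast, Real.rpow_two]
      have f4 : (0 : ℝ) ≤ (m : ℝ) ^ q := by positivity
      rw [f3]; push_cast
      nlinarith
    refine (Real.rpow_le_rpow (by positivity) e1 hv0.le).trans ?_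
    rw [Real.mul_rpow (by norm_num) (by positivity), ← Real.rpow_mul hn0.le]
    apply le_of_eq
    congr 1
    rw [Real.rpow_def_of_pos hn0, Real.rpow_def_of_pos hq0, hv]
    congr 1
    field_simp
  have hx0 : 0 ≤ Real.log 4 * v := by positivity
  have hx1 : Real.log 4 * v ≤ 1 := by
    rw [hv, ← mul_div_assoc, div_le_one (by positivity)]
    nlinarith
  have hB : (4 : ℝ) ^ (v : ℝ) - 1 ≤ c * Real.log 4 * Real.log q / q := by
    rw [Real.rpow_def_of_pos (by norm_num)]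
    refine (exp_sub_one_le hx0 hx1).trans (le_of_eq ?_)
    rw [hv]; field_simp
  have hp1 : (4 : ℝ) ^ (-(v : ℝ)) ≤ 1 :=
    Real.rpow_le_one_of_one_le_of_nonpos (by norm_num) (by linarith)
  have e4 : (4 : ℝ) ^ (-(v : ℝ)) * (4 : ℝ) ^ (v : ℝ) = 1 := by
    rw [← Real.rpow_add (by norm_num)]; simp
  have hC : (q : ℝ) ^ (1 - c * Real.log n) * q ^ (c * Real.log n) = q := by
    rw [← Real.rpow_add hq0]; simp
  have hD : (0 : ℝ) < (q : ℝ) ^ (c * Real.log n) := by positivity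
  calc (1 - (4 : ℝ) ^ (-(v : ℝ))) * ((((m ^ q : ℕ) : ℝ) + 1) ^ 2) ^ (v : ℝ)
      ≤ (1 - (4 : ℝ) ^ (-(v : ℝ))) * ((4 : ℝ) ^ (v : ℝ) * q ^ (c * Real.log n)) := by
        gcongr
    _ = ((4 : ℝ) ^ (v : ℝ) - 1) * q ^ (c * Real.log n) := by
        linear_combination (-((q : ℝ) ^ (c * Real.log n))) * e4
    _ ≤ ((q : ℝ) ^ (1 - c * Real.log n) / q) * q ^ (c * Real.log n) := by
        gcongr
        refine hB.trans ?_
        gcongr
    _ = 1 := by
        rw [div_mul_eq_mul_div, hC, div_self hq0.ne']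

theorem ev_upper (n : ℕ) (hn : 2 ≤ n) (c : ℝ) (hc0 : 0 < c) (hc : 1 < c * Real.log n) :
    ∀ᶠ q : ℕ in atTop, ∀ u : ℝ≥0, (u : ℝ) = c * Real.log q / (2 * q) →
      dimH (J (insert 1 (range fun m : ℕ => (m + n) ^ q))) ≤ u ∧
      dimH (J (range fun m : ℕ => (m + 2) ^ q)) ≤ u := by
  have hl4 : 0 < Real.log 4 := Real.log_pos (by norm_num)
  have h1 := tendsto_natCast_atTop_atTop.eventually
    ((tendsto_rpow_atTop (y := c * Real.log n - 1) (by linarith)).eventually_gt_atTop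
      (8 * (n : ℝ) ^ 2 / (c * Real.log 4)))
  have h2 := tendsto_natCast_atTop_atTop.eventually (ev_log_le (c * Real.log 4) 1 one_pos)
  have h3 := tendsto_natCast_atTop_atTop.eventually
    (Real.tendsto_log_atTop.eventually_gt_atTop (2 / c))
  have h4 := tendsto_natCast_atTop_atTop.eventually
    (Real.tendsto_log_atTop.eventually_gt_atTop 1)
  filter_upwards [h1, h2, h3, h4, eventually_ge_atTop 2] with q hq1 hq2 hq4 hq5 hq3 u hu
  have hq : (2 : ℝ) ≤ q := by exact_mod_cast hq3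
  have hq0 : (0 : ℝ) < q := by linarith
  have hlog : 0 < Real.log q := Real.log_pos (by linarith)
  have hu0 : (0 : ℝ) < u := by rw [hu]; positivity
  have ht : 2 * (q : ℝ) * u = c * Real.log q := by rw [hu]; field_simp
  have ht2 : 2 < 2 * (q : ℝ) * u := by
    rw [ht]; rw [div_lt_iff₀ hc0] at hq4; linarith
  have hc2 : ∀ k m : ℕ, 2 ≤ k → 2 ≤ (m + k) ^ q := by
    intro k m hk
    calc 2 = 2 ^ 1 := by norm_num
      _ ≤ 2 ^ q := Nat.pow_le_pow_right (by norm_num) (by omega)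
      _ ≤ (m + k) ^ q := Nat.pow_le_pow_left (by omega) q
  rw [Real.rpow_one] at hq2
  have hn' : (2 : ℝ) ≤ n := by exact_mod_cast hn
  have hn0 : (0 : ℝ) < n := by linarith
  constructor
  · apply dimH_J_le_one _ (fun m => hc2 n m hn)
    have hb := tail_bound n q hn u ht2.le
    have e1 : ((4⁻¹ : ℝ≥0) : ℝ≥0∞) ^ (u : ℝ) = ENNReal.ofReal (Real.exp (-(Real.log 4 * u))) := by
      rw [← ENNReal.coe_rpow_of_nonneg _ u.coe_nonneg, ← ENNReal.ofReal_coe_nnreal]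
      congr 1
      push_cast
      rw [Real.rpow_def_of_pos (by norm_num), Real.log_inv]
      congr 1
      ring
    have hx0 : 0 ≤ Real.log 4 * u := by positivity
    have hx1 : Real.log 4 * u ≤ 1 := by
      rw [hu, ← mul_div_assoc, div_le_one (by positivity)]
      nlinarith
    have e2 := exp_neg_le hx0 hx1
    have e3 : (n : ℝ) ^ (2 - 2 * (q : ℝ) * u) = (n : ℝ) ^ 2 / (q ^ (c * Real.log n - 1) * q) := by
      rw [ht, Real.rpow_sub hn0, Real.rpow_two, ← Real.rpow_add_one hq0.ne']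
      congr 1
      rw [Real.rpow_def_of_pos hn0, Real.rpow_def_of_pos hq0]
      congr 1
      ring
    have hD : (0 : ℝ) < (q : ℝ) ^ (c * Real.log n - 1) := by positivity
    have e4 : 2 * (n : ℝ) ^ (2 - 2 * (q : ℝ) * u) < Real.log 4 * u / 2 := by
      rw [e3, hu]
      rw [div_lt_iff₀ (by positivity)] at hq1
      have : Real.log 4 * (c * Real.log q / (2 * q)) / 2 =
          (c * Real.log 4 * Real.log q / 4 * q ^ (c * Real.log n - 1)) /
            (q ^ (c * Real.log n - 1) * q) := by field_simp; norm_num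
      rw [this, ← mul_div_assoc]
      apply div_lt_div_of_pos_right _ (by positivity)
      have f1 : 0 < c * Real.log 4 * (q : ℝ) ^ (c * Real.log n - 1) := by positivity
      nlinarith
    calc _ ≤ ENNReal.ofReal (Real.exp (-(Real.log 4 * u))) +
          2 * ENNReal.ofReal ((n : ℝ) ^ (2 - 2 * (q : ℝ) * u)) := by
          rw [e1]; gcongr
      _ = ENNReal.ofReal (Real.exp (-(Real.log 4 * u)) +
          2 * ((n : ℝ) ^ (2 - 2 * (q : ℝ) * u))) := by
          rw [ENNReal.ofReal_add (by positivity) (by positivity),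
            ENNReal.ofReal_mul (by norm_num)]
          simp
      _ < 1 := by
          rw [ENNReal.ofReal_lt_one]; linarith
  · apply dimH_J_le_no_one _ (fun m => hc2 2 m le_rfl)
    refine (tail_bound 2 q le_rfl u ht2.le).trans_lt ?_
    rw [ENNReal.ofReal_lt_one]
    exact Real.rpow_lt_one_of_one_lt_of_neg (by norm_num) (by linarith)

theorem ev_gap (n : ℕ) (hn : 2 ≤ n) : ∀ᶠ q : ℕ in atTop, ∃ u v : ℝ≥0, u < v ∧
    (∀ m : ℕ, 2 ≤ m → m ≤ n → (v : ℝ≥0∞) ≤ dimH (J {1, m ^ q})) ∧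
    dimH (J (insert 1 (range fun m : ℕ => (m + (n + 1)) ^ q))) ≤ u ∧
    dimH (J (range fun m : ℕ => (m + 2) ^ q)) ≤ u := by
  have hn' : (2 : ℝ) ≤ n := by exact_mod_cast hn
  have hl1 : 0 < Real.log n := Real.log_pos (by linarith)
  have hl2 : Real.log n < Real.log ((n + 1 : ℕ) : ℝ) := by
    apply Real.log_lt_log (by linarith); push_cast; linarith
  have hlt : 1 / Real.log ((n + 1 : ℕ) : ℝ) < 1 / Real.log n := one_div_lt_one_div_of_lt hl1 hl2
  obtain ⟨c1, h11, h12⟩ := exists_between hlt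
  obtain ⟨c2, h21, h22⟩ := exists_between h12
  have hl3 : 0 < Real.log ((n + 1 : ℕ) : ℝ) := by linarith
  have hc1 : 0 < c1 := lt_trans (by positivity) h11
  have hc2 : 0 < c2 := by linarith
  have hA := ev_lower n hn c2 hc2 (by rwa [lt_div_iff₀ hl1] at h22)
  have hB := ev_upper (n + 1) (by omega) c1 hc1 (by rwa [div_lt_iff₀ hl3] at h11)
  filter_upwards [hA, hB, eventually_ge_atTop 2] with q hq1 hq2 hq3
  have hq : (2 : ℝ) ≤ q := by exact_mod_cast hq3
  have hlog : 0 < Real.log q := Real.log_pos (by linarith)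
  refine ⟨⟨c1 * Real.log q / (2 * q), by positivity⟩, ⟨c2 * Real.log q / (2 * q), by positivity⟩,
    ?_, hq1 _ rfl, hq2 _ rfl⟩
  apply NNReal.coe_lt_coe.1
  show c1 * Real.log q / (2 * q) < c2 * Real.log q / (2 * q)
  gcongr

end Pool.Agent.Lib.MP_d09e6d_nt
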