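import Pool.Agent.Lib.MP_d09e6d_nt.Gap

namespace Pool.Agent.Lib.MP_d09e6d_nt

open Set Filter Metric MeasureTheory
open scoped NNReal ENNReal Topology

theorem toReal_le_of {S : Set ℝ} {u : ℝ≥0} (h : dimH S ≤ u) : (dimH S).toReal ≤ u := by
  have := ENNReal.toReal_mono ENNReal.coe_ne_top h
  simpa using this

theorem le_toReal_of {S : Set ℝ} {v : ℝ≥0} (h : (v : ℝ≥0∞) ≤ dimH S) :
    (v : ℝ) ≤ (dimH S).toReal := by
  have := ENNReal.toReal_mono (Real.dimH_ne_top S) h
  simpa using this

theorem dichotomy {n q : ℕ} {u v : ℝ≥0}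
    (h1 : ∀ m : ℕ, 2 ≤ m → m ≤ n → (v : ℝ≥0∞) ≤ dimH (J {1, m ^ q}))
    (h2 : dimH (J (insert 1 (range fun m : ℕ => (m + (n + 1)) ^ q))) ≤ u)
    (h3 : dimH (J (range fun m : ℕ => (m + 2) ^ q)) ≤ u) {d : ℝ} (hd : d ∈ DS (M q)) :
    d ≤ u ∨ (v : ℝ) ≤ d := by
  obtain ⟨F, hF, -, rfl⟩ := hd
  by_cases hone : 1 ∈ F
  · by_cases hm : ∃ m : ℕ, 2 ≤ m ∧ m ≤ n ∧ m ^ q ∈ F
    · obtain ⟨m, hm1, hm2, hm3⟩ := hm
      right
      refine le_toReal_of ((h1 m hm1 hm2).trans (dimH_mono (J_mono ?_)))
      rintro a (rfl | rfl)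
      · exact hone
      · exact hm3
    · left
      refine toReal_le_of ((dimH_mono (J_mono ?_)).trans h2)
      intro a ha
      obtain ⟨m, hm1, rfl⟩ := hF ha
      rcases hm1.eq_or_lt with rfl | hm1
      · left; simp
      · right
        have : n + 1 ≤ m := by
          by_contra hcon
          exact hm ⟨m, hm1, by omega, ha⟩
        exact ⟨m - (n + 1), by simp only [Nat.sub_add_cancel this]⟩
  · left
    refine toReal_le_of ((dimH_mono (J_mono ?_)).trans h3)
    intro a ha
    obtain ⟨m, hm1, rfl⟩ := hF ha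
    rcases hm1.eq_or_lt with rfl | hm1
    · rw [one_pow] at ha; exact absurd ha hone
    · exact ⟨m - 2, by simp only [Nat.sub_add_cancel hm1]⟩

theorem comp_ne {D : Set ℝ} {a b : D} {g : ℝ} (hg : g ∉ D) (ha : (a : ℝ) < g) (hb : g < b) :
    (a : ConnectedComponents D) ≠ b := by
  intro h
  rw [ConnectedComponents.coe_eq_coe'] at h
  have hcl : IsClopen {x : D | g < (x : ℝ)} := by
    constructor
    · have : {x : D | g < (x : ℝ)} = {x : D | g ≤ (x : ℝ)} := by
        ext x
        simp only [Set.mem_ofPred_eq]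
        constructor
        · exact le_of_lt
        · intro hx
          rcases hx.lt_or_eq with h1 | h1
          · exact h1
          · exact absurd (h1 ▸ x.2) hg
      rw [this]
      exact isClosed_le continuous_const continuous_subtype_val
    · exact isOpen_lt continuous_const continuous_subtype_val
  have := hcl.connectedComponent_subset (x := b) hb h
  simp only [Set.mem_ofPred_eq] at this
  linarith

theorem main (C : ℕ) : ∀ᶠ q : ℕ in atTop,
    (C : ℕ∞) < ENat.card (ConnectedComponents (DS (M q))) := by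
  have hall : ∀ᶠ q : ℕ in atTop, ∀ i : Fin (C + 1), ∃ u v : ℝ≥0, u < v ∧
      (∀ m : ℕ, 2 ≤ m → m ≤ i + 2 → (v : ℝ≥0∞) ≤ dimH (J {1, m ^ q})) ∧
      dimH (J (insert 1 (range fun m : ℕ => (m + (i + 2 + 1)) ^ q))) ≤ u ∧
      dimH (J (range fun m : ℕ => (m + 2) ^ q)) ≤ u :=
    eventually_all.2 fun i => ev_gap (i + 2) (by omega)
  filter_upwards [hall] with q hq
  have hmem : ∀ i : Fin (C + 1), (dimH (J {1, ((i : ℕ) + 2) ^ q})).toReal ∈ DS (M q) := by
    intro i
    refine ⟨{1, ((i : ℕ) + 2) ^ q}, ?_, by simp, rfl⟩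
    rintro a (rfl | rfl)
    · exact ⟨1, le_rfl, by simp⟩
    · exact ⟨i + 2, by omega, rfl⟩
  let f : Fin (C + 1) → ConnectedComponents (DS (M q)) := fun i =>
    ((⟨_, hmem i⟩ : DS (M q)) : ConnectedComponents (DS (M q)))
  have hlt : ∀ i j : Fin (C + 1), i < j → f j ≠ f i := by
    intro i j hij
    obtain ⟨u, v, huv, h1, h2, h3⟩ := hq i
    have huv' : (u : ℝ) < v := huv
    refine comp_ne (g := ((u : ℝ) + v) / 2) ?_ ?_ ?_
    · intro hg
      rcases dichotomy h1 h2 h3 hg with h | h <;> linarith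
    · have : (dimH (J {1, ((j : ℕ) + 2) ^ q})).toReal ≤ u := by
        refine toReal_le_of ((dimH_mono (J_mono ?_)).trans h2)
        rintro a (rfl | rfl)
        · left; rfl
        · right
          have : (i : ℕ) < j := hij
          exact ⟨j - i - 1, by simp only; congr 1; omega⟩
      show (dimH (J {1, ((j : ℕ) + 2) ^ q})).toReal < _
      linarith
    · have := le_toReal_of (h1 (i + 2) (by omega) le_rfl)
      show _ < (dimH (J {1, ((i : ℕ) + 2) ^ q})).toReal
      linarith
  have hinj : Function.Injective f := by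
    intro i j hij
    rcases lt_trichotomy i j with h | h | h
    · exact absurd hij.symm (hlt i j h)
    · exact h
    · exact absurd hij (hlt j i h)
  have := ENat.card_le_card_of_injective hinj
  refine lt_of_lt_of_le ?_ this
  simp only [ENat.card_eq_coe_fintype_card, Fintype.card_fin]
  exact_mod_cast Nat.lt_succ_self C

end Pool.Agent.Lib.MP_d09e6d_nt
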