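import Pool.Agent.Lib.MP_d09e6d_nt.CF

namespace Pool.Agent.Lib.MP_d09e6d_nt

open Set Filter Metric MeasureTheory
open scoped NNReal ENNReal Topology

theorem dimH_le_of_cover {ι : Type} [Countable ι] (S : Set ℝ) (φ : ι → ℝ → ℝ) (L : ι → ℝ≥0)
    (hS : S ⊆ Icc 0 1) (hmap : ∀ i, MapsTo (φ i) (Icc 0 1) (Icc 0 1))
    (hL : ∀ i, LipschitzOnWith (L i) (φ i) (Icc 0 1)) (hL4 : ∀ i, (L i : ℝ≥0∞) ≤ 2⁻¹)
    (hcov : ∀ x ∈ S, ∃ i, ∃ y ∈ S, x = φ i y) (s : ℝ≥0)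
    (hsum : ∑' i, (L i : ℝ≥0∞) ^ (s : ℝ) < 1) : dimH S ≤ s := by
  set ρ := ∑' i, (L i : ℝ≥0∞) ^ (s : ℝ) with hρ
  have key : ∀ k : ℕ, ∃ (κ : Type) (_ : Countable κ) (t : κ → Set ℝ),
      S ⊆ ⋃ j, t j ∧ (∀ j, t j ⊆ Icc 0 1) ∧ (∀ j, ediam (t j) ≤ (2⁻¹ : ℝ≥0∞) ^ k) ∧
      ∑' j, ediam (t j) ^ (s : ℝ) ≤ ρ ^ k := by
    intro k
    induction k with
    | zero =>
      refine ⟨Unit, inferInstance, fun _ => Icc 0 1, ?_, fun _ => subset_rfl, fun _ => ?_, ?_⟩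
      · intro x hx; exact mem_iUnion.2 ⟨(), hS hx⟩
      · simp [Real.ediam_Icc]
      · simp [Real.ediam_Icc]
    | succ k ih =>
      obtain ⟨κ, hκ, t, h1, h2, h3, h4⟩ := ih
      have hd : ∀ i j, ediam (φ i '' t j) ≤ L i * ediam (t j) := by
        intro i j
        have := (holderOnWith_one.2 (hL i)).ediam_image_le_of_subset (h2 j)
        simpa using this
      refine ⟨ι × κ, inferInstance, fun p => φ p.1 '' t p.2, ?_, ?_, ?_, ?_⟩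
      · intro x hx
        obtain ⟨i, y, hy, rfl⟩ := hcov x hx
        obtain ⟨j, hj⟩ := mem_iUnion.1 (h1 hy)
        exact mem_iUnion.2 ⟨(i, j), mem_image_of_mem _ hj⟩
      · rintro ⟨i, j⟩ _ ⟨y, hy, rfl⟩
        exact hmap i (h2 j hy)
      · rintro ⟨i, j⟩
        refine (hd i j).trans ?_
        rw [pow_succ']
        exact mul_le_mul' (hL4 i) (h3 j)
      · calc ∑' p : ι × κ, ediam (φ p.1 '' t p.2) ^ (s : ℝ)
            ≤ ∑' p : ι × κ, (L p.1 : ℝ≥0∞) ^ (s : ℝ) * ediam (t p.2) ^ (s : ℝ) := by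
              refine ENNReal.tsum_le_tsum fun p => ?_
              rw [← ENNReal.mul_rpow_of_nonneg _ _ s.coe_nonneg]
              exact ENNReal.rpow_le_rpow (hd p.1 p.2) s.coe_nonneg
          _ = ρ * ∑' j, ediam (t j) ^ (s : ℝ) := by
              rw [ENNReal.tsum_prod', hρ, ← ENNReal.tsum_mul_right]
              simp only [ENNReal.tsum_mul_left]
          _ ≤ ρ * ρ ^ k := by gcongr
          _ = ρ ^ (k + 1) := by rw [pow_succ']
  choose κ hκ t h1 h2 h3 h4 using key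
  have hr : Tendsto (fun k : ℕ => (2⁻¹ : ℝ≥0∞) ^ k) atTop (𝓝 0) :=
    ENNReal.tendsto_pow_atTop_nhds_zero_of_lt_one (by norm_num)
  have hle := Measure.hausdorffMeasure_le_liminf_tsum (s : ℝ) S (l := atTop)
    (fun k : ℕ => (2⁻¹ : ℝ≥0∞) ^ k) hr t (Eventually.of_forall h3) (Eventually.of_forall h1)
  have hr2 : Tendsto (fun k : ℕ => ρ ^ k) atTop (𝓝 0) :=
    ENNReal.tendsto_pow_atTop_nhds_zero_of_lt_one hsum
  have hle2 : liminf (fun n => ∑' i, ediam (t n i) ^ (s : ℝ)) atTop ≤ 0 := by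
    rw [← hr2.liminf_eq]
    exact liminf_le_liminf (Eventually.of_forall h4)
  apply dimH_le_of_hausdorffMeasure_ne_top
  rw [le_antisymm (hle.trans hle2) zero_le]
  exact ENNReal.zero_ne_top

/-- The inverse branch of the Gauss map. -/
noncomputable def th (a : ℝ) (y : ℝ) : ℝ := 1 / (a + y)

theorem th_maps {a : ℝ} (ha : 1 ≤ a) : MapsTo (th a) (Icc 0 1) (Icc 0 1) := by
  rintro y ⟨h0, h1⟩
  unfold th
  constructor
  · positivity
  · rw [div_le_one (by linarith)]; linarith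

theorem th_lip {a : ℝ≥0} (ha : 1 ≤ a) : LipschitzOnWith ((a ^ 2)⁻¹) (th a) (Icc 0 1) := by
  refine LipschitzOnWith.of_dist_le_mul ?_
  rintro x ⟨hx0, -⟩ y ⟨hy0, -⟩
  have ha' : (1 : ℝ) ≤ a := by exact_mod_cast ha
  have h1 : 0 < (a : ℝ) + x := by linarith
  have h2 : 0 < (a : ℝ) + y := by linarith
  have : th a x - th a y = (y - x) / (((a : ℝ) + x) * (a + y)) := by
    unfold th; field_simp; ring
  rw [Real.dist_eq, Real.dist_eq, this, abs_div, abs_sub_comm, abs_of_pos (mul_pos h1 h2)]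
  push_cast
  rw [div_eq_inv_mul]
  gcongr
  nlinarith

theorem th11_lip : LipschitzOnWith 4⁻¹ (th 1 ∘ th 1) (Icc 0 1) := by
  refine LipschitzOnWith.of_dist_le_mul ?_
  rintro x ⟨hx0, -⟩ y ⟨hy0, -⟩
  have h1 : 0 < (2 : ℝ) + x := by linarith
  have h2 : 0 < (2 : ℝ) + y := by linarith
  have h3 : 0 < (1 : ℝ) + x := by linarith
  have h4 : 0 < (1 : ℝ) + y := by linarith
  have : (th 1 ∘ th 1) x - (th 1 ∘ th 1) y = (x - y) / (((2 : ℝ) + x) * (2 + y)) := by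
    simp only [Function.comp, th]
    have e1 : (1 : ℝ) + 1 / (1 + x) = (2 + x) / (1 + x) := by field_simp; ring
    have e2 : (1 : ℝ) + 1 / (1 + y) = (2 + y) / (1 + y) := by field_simp; ring
    rw [e1, e2]; field_simp; ring
  rw [Real.dist_eq, Real.dist_eq, this, abs_div, abs_of_pos (mul_pos h1 h2)]
  push_cast
  rw [div_eq_inv_mul]
  gcongr
  nlinarith

theorem J_sub (F : Set ℕ) : J F ⊆ Icc 0 1 := fun _ hx => ⟨hx.2.1.le, hx.2.2.1.le⟩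

theorem inv_sq_le_half {a : ℕ} (ha : 2 ≤ a) :
    ((((a : ℝ≥0) ^ 2)⁻¹ : ℝ≥0) : ℝ≥0∞) ≤ 2⁻¹ := by
  have h : (((a : ℝ≥0) ^ 2)⁻¹ : ℝ≥0) ≤ 2⁻¹ := by
    have ha' : (2 : ℝ≥0) ≤ a := by exact_mod_cast ha
    apply inv_anti₀ (by norm_num)
    calc (2 : ℝ≥0) ≤ 2 ^ 2 := by norm_num
      _ ≤ (a : ℝ≥0) ^ 2 := by gcongr
  have h2 : ((2⁻¹ : ℝ≥0) : ℝ≥0∞) = 2⁻¹ := by simp
  rw [← h2]
  exact_mod_cast h

/-- Upper bound for digit sets without the digit one. -/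
theorem dimH_J_le_no_one (c : ℕ → ℕ) (hc : ∀ m, 2 ≤ c m) (s : ℝ≥0)
    (hsum : ∑' m, ((((c m : ℝ≥0) ^ 2)⁻¹ : ℝ≥0) : ℝ≥0∞) ^ (s : ℝ) < 1) :
    dimH (J (range c)) ≤ s := by
  have hc1 : ∀ m, (1 : ℝ≥0) ≤ c m := fun m => by exact_mod_cast (le_trans (by norm_num) (hc m))
  refine dimH_le_of_cover (J (range c)) (fun m => th (c m : ℝ≥0))
    (fun m => ((c m : ℝ≥0) ^ 2)⁻¹) (J_sub _) (fun m => th_maps (by exact_mod_cast hc1 m))
    (fun m => th_lip (hc1 m)) (fun m => inv_sq_le_half (hc m)) ?_ s hsum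
  intro x hx
  obtain ⟨a, ⟨m, rfl⟩, -, y, hy, rfl⟩ := J_step hx
  exact ⟨m, y, hy, by simp [th]⟩

/-- Upper bound for digit sets containing the digit one. -/
theorem dimH_J_le_one (c : ℕ → ℕ) (hc : ∀ m, 2 ≤ c m) (s : ℝ≥0)
    (hsum : ((4⁻¹ : ℝ≥0) : ℝ≥0∞) ^ (s : ℝ) +
      2 * ∑' m, ((((c m : ℝ≥0) ^ 2)⁻¹ : ℝ≥0) : ℝ≥0∞) ^ (s : ℝ) < 1) :
    dimH (J (insert 1 (range c))) ≤ s := by
  have hc1 : ∀ m, (1 : ℝ≥0) ≤ c m := fun m => by exact_mod_cast (le_trans (by norm_num) (hc m))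
  let φ : Unit ⊕ ℕ ⊕ ℕ → ℝ → ℝ := Sum.elim (fun _ => th 1 ∘ th 1)
    (Sum.elim (fun m => th 1 ∘ th (c m : ℝ≥0)) (fun m => th (c m : ℝ≥0)))
  let L : Unit ⊕ ℕ ⊕ ℕ → ℝ≥0 := Sum.elim (fun _ => 4⁻¹)
    (Sum.elim (fun m => ((c m : ℝ≥0) ^ 2)⁻¹) (fun m => ((c m : ℝ≥0) ^ 2)⁻¹))
  have hm1 : MapsTo (th 1) (Icc 0 1) (Icc 0 1) := th_maps le_rfl
  have hmc : ∀ m, MapsTo (th (c m : ℝ≥0)) (Icc 0 1) (Icc 0 1) :=
    fun m => th_maps (by exact_mod_cast hc1 m)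
  refine dimH_le_of_cover (J (insert 1 (range c))) φ L (J_sub _) ?_ ?_ ?_ ?_ s ?_
  · rintro (_ | m | m)
    · exact hm1.comp hm1
    · exact hm1.comp (hmc m)
    · exact hmc m
  · rintro (_ | m | m)
    · exact th11_lip
    · have h1 : LipschitzOnWith 1 (th 1) (Icc 0 1) := by
        have := th_lip (a := 1) le_rfl
        simpa using this
      have := h1.comp (th_lip (hc1 m)) (hmc m)
      rw [one_mul] at this
      exact this
    · exact th_lip (hc1 m)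
  · rintro (_ | m | m)
    · have := inv_sq_le_half (a := 2) le_rfl
      simp only [L, Sum.elim_inl]
      convert this using 2
      norm_num
    · exact inv_sq_le_half (hc m)
    · exact inv_sq_le_half (hc m)
  · intro x hx
    obtain ⟨a, ha, -, y, hy, rfl⟩ := J_step hx
    rcases ha with rfl | ⟨m, rfl⟩
    · obtain ⟨b, hb, -, z, hz, rfl⟩ := J_step hy
      rcases hb with rfl | ⟨m, rfl⟩
      · exact ⟨Sum.inl (), z, hz, by simp [φ, th]⟩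
      · exact ⟨Sum.inr (Sum.inl m), z, hz, by simp [φ, th]⟩
    · exact ⟨Sum.inr (Sum.inr m), y, hy, by simp [φ, th]⟩
  · rw [Summable.tsum_sum ENNReal.summable ENNReal.summable,
      Summable.tsum_sum ENNReal.summable ENNReal.summable]
    simpa [L, two_mul] using hsum

end Pool.Agent.Lib.MP_d09e6d_nt
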